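import Pool.Agent.Helper68.ELP.D12
import Pool.Agent.Helper38.ELP.Local

set_option autoImplicit false

/-!
# The configuration of `b` is a unit tour (module D10, from D7, D8, D9)
-/

namespace Pool.Agent.Helper68.ELP

open Pool.Agent.Helper38.ELP
open Pool.Agent.Helper68.LP (finRotate_two Nb)

theorem adjU_symm {uh uv : ℕ → ℕ → Bool} {p q : ℕ × ℕ} (h : adjU uh uv p q) : adjU uh uv q p := by
  unfold adjU at *
  tauto

theorem adjU_nb {uh uv : ℕ → ℕ → Bool} {p q : ℕ × ℕ} (h : adjU uh uv p q) : Nb p q := by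
  unfold adjU at h
  unfold Nb
  rcases h with ⟨h, -⟩ | ⟨h, -⟩ | ⟨h, -⟩ | ⟨h, -⟩ <;> subst h <;> simp

theorem adjU_ne {uh uv : ℕ → ℕ → Bool} {p q : ℕ × ℕ} (h : adjU uh uv p q) : p ≠ q := by
  rintro rfl
  have := adjU_nb h
  unfold Nb at this
  omega

theorem adjU_right {uh uv : ℕ → ℕ → Bool} {x y : ℕ} :
    adjU uh uv (x, y) (x + 1, y) ↔ uh x y = true := by
  unfold adjU
  constructor
  · rintro (⟨-, h⟩ | ⟨h, -⟩ | ⟨h, -⟩ | ⟨h, -⟩)
    · exact h
    · simp only [Prod.mk.injEq] at h; omega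
    · simp only [Prod.mk.injEq] at h; omega
    · simp only [Prod.mk.injEq] at h; omega
  · intro h; exact Or.inl ⟨rfl, h⟩

theorem adjU_up {uh uv : ℕ → ℕ → Bool} {x y : ℕ} :
    adjU uh uv (x, y) (x, y + 1) ↔ uv x y = true := by
  unfold adjU
  constructor
  · rintro (⟨h, -⟩ | ⟨h, -⟩ | ⟨-, h⟩ | ⟨h, -⟩)
    · simp only [Prod.mk.injEq] at h; omega
    · simp only [Prod.mk.injEq] at h; omega
    · exact h
    · simp only [Prod.mk.injEq] at h; omega
  · intro h; exact Or.inr (Or.inr (Or.inl ⟨rfl, h⟩))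

/-- the neighbours of a vertex as a finite set -/
def nbrs (uh uv : ℕ → ℕ → Bool) (x y : ℕ) : Finset (ℕ × ℕ) :=
  (if uh x y = true then {(x + 1, y)} else ∅) ∪ ((if uv x y = true then {(x, y + 1)} else ∅) ∪
    ((if x ≠ 0 ∧ uh (x - 1) y = true then {(x - 1, y)} else ∅) ∪
      (if y ≠ 0 ∧ uv x (y - 1) = true then {(x, y - 1)} else ∅)))

theorem mem_nbrs {uh uv : ℕ → ℕ → Bool} {x y : ℕ} {q : ℕ × ℕ} :
    q ∈ nbrs uh uv x y ↔ adjU uh uv (x, y) q := by
  obtain ⟨c, d⟩ := q
  have ite_mem : ∀ (Q : Prop) [Decidable Q] (a b : ℕ × ℕ),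
      a ∈ (if Q then {b} else (∅ : Finset (ℕ × ℕ))) ↔ Q ∧ a = b := by
    intro Q _ a b
    split_ifs with h
    · simp [h]
    · simp [h]
  unfold nbrs adjU
  simp only [Finset.mem_union, ite_mem, Prod.mk.injEq]
  constructor
  · rintro (⟨h, h1, h2⟩ | ⟨h, h1, h2⟩ | ⟨⟨h0, h⟩, h1, h2⟩ | ⟨⟨h0, h⟩, h1, h2⟩)
    · exact Or.inl ⟨⟨h1, h2⟩, h⟩
    · exact Or.inr (Or.inr (Or.inl ⟨⟨h1, h2⟩, h⟩))
    · refine Or.inr (Or.inl ⟨⟨by omega, h2.symm⟩, ?_⟩)
      rw [h1, h2]; exact h
    · refine Or.inr (Or.inr (Or.inr ⟨⟨h1.symm, by omega⟩, ?_⟩))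
      rw [h1, h2]; exact h
  · rintro (⟨⟨h1, h2⟩, h⟩ | ⟨⟨h1, h2⟩, h⟩ | ⟨⟨h1, h2⟩, h⟩ | ⟨⟨h1, h2⟩, h⟩)
    · exact Or.inl ⟨h, h1, h2⟩
    · subst h1; subst h2
      exact Or.inr (Or.inr (Or.inl ⟨⟨by omega, by simpa using h⟩, by omega, rfl⟩))
    · exact Or.inr (Or.inl ⟨h, h1, h2⟩)
    · subst h1; subst h2
      exact Or.inr (Or.inr (Or.inr ⟨⟨by omega, by simpa using h⟩, rfl, by omega⟩))

theorem card_nbrs (uh uv : ℕ → ℕ → Bool) (x y : ℕ) :
    (nbrs uh uv x y).card = degU uh uv x y := by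
  unfold nbrs
  rw [Finset.card_union_of_disjoint, Finset.card_union_of_disjoint, Finset.card_union_of_disjoint]
  · unfold degU
    have c : ∀ (Q : Prop) [Decidable Q] (b : ℕ × ℕ),
        (if Q then {b} else (∅ : Finset (ℕ × ℕ))).card = if Q then 1 else 0 := by
      intro Q _ b
      split_ifs <;> simp
    rw [c, c, c, c]
    have t : ∀ b : Bool, b.toNat = if b = true then 1 else 0 := by
      intro b; cases b <;> rfl
    rw [t, t, t, t]
    have e : ∀ (Q Q' : Prop) [Decidable Q] [Decidable Q'],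
        (if ¬ Q ∧ Q' then 1 else 0) = if Q then 0 else if Q' then 1 else 0 := by
      intro Q Q' _ _
      by_cases h : Q <;> by_cases h' : Q' <;> simp [h, h']
    simp only [ne_eq]
    rw [e, e]
    ring
  · rw [Finset.disjoint_left]
    intro a ha hb
    split_ifs at ha hb with h1 h2 h3
    · rw [Finset.mem_singleton] at ha hb
      rw [ha] at hb
      simp only [Prod.mk.injEq] at hb
      omega
    all_goals first | exact absurd ha (Finset.notMem_empty _) | exact absurd hb (Finset.notMem_empty _)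
  · rw [Finset.disjoint_left]
    intro a ha hb
    rw [Finset.mem_union] at hb
    rcases hb with hb | hb
    · split_ifs at ha hb with h1 h2 h3
      · rw [Finset.mem_singleton] at ha hb
        rw [ha] at hb
        simp only [Prod.mk.injEq] at hb
        omega
      all_goals first | exact absurd ha (Finset.notMem_empty _) | exact absurd hb (Finset.notMem_empty _)
    · split_ifs at ha hb with h1 h2 h3
      · rw [Finset.mem_singleton] at ha hb
        rw [ha] at hb
        simp only [Prod.mk.injEq] at hb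
        omega
      all_goals first | exact absurd ha (Finset.notMem_empty _) | exact absurd hb (Finset.notMem_empty _)
  · rw [Finset.disjoint_left]
    intro a ha hb
    rw [Finset.mem_union, Finset.mem_union] at hb
    rcases hb with hb | hb | hb
    · split_ifs at ha hb with h1 h2 h3
      · rw [Finset.mem_singleton] at ha hb
        rw [ha] at hb
        simp only [Prod.mk.injEq] at hb
        omega
      all_goals first | exact absurd ha (Finset.notMem_empty _) | exact absurd hb (Finset.notMem_empty _)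
    · split_ifs at ha hb with h1 h2 h3
      · rw [Finset.mem_singleton] at ha hb
        rw [ha] at hb
        simp only [Prod.mk.injEq] at hb
        omega
      all_goals first | exact absurd ha (Finset.notMem_empty _) | exact absurd hb (Finset.notMem_empty _)
    · split_ifs at ha hb with h1 h2 h3
      · rw [Finset.mem_singleton] at ha hb
        rw [ha] at hb
        simp only [Prod.mk.injEq] at hb
        omega
      all_goals first | exact absurd ha (Finset.notMem_empty _) | exact absurd hb (Finset.notMem_empty _)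

theorem nb_unitStep {p q : ℕ × ℕ} (h : Nb p q) : UnitStep (cst p) (cst q) := by
  obtain ⟨a, b⟩ := p
  obtain ⟨c, d⟩ := q
  unfold Nb at h
  simp only at h
  unfold UnitStep cst
  simp only
  rcases h with ⟨h1, h2⟩ | ⟨h1, h2⟩ | ⟨h1, h2⟩ | ⟨h1, h2⟩ <;> subst h1 <;> subst h2 <;>
    push_cast <;> ring

/-- module D10 -/
theorem d10 (h7 : specD7) (h8 : specD8) (h9 : specD9) : specD10 := by
  intro M b hb0 hb1
  obtain ⟨pH, pV, -, -, hdeg⟩ := h8 M b hb0 hb1
  have hreach := h9 M b hb0 hb1
  set N := 2 * M + 2 with hN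
  set uh := uH N b with huh
  set uv := uV N b with huv
  -- used edges join vertices
  have hends : ∀ p q : ℕ × ℕ, adjU uh uv p q → p ∈ Vset N ∧ q ∈ Vset N := by
    intro p q h
    unfold adjU at h
    rw [Pool.Agent.Helper38.ELP.mem_Vset, Pool.Agent.Helper38.ELP.mem_Vset]
    rcases h with ⟨h, h'⟩ | ⟨h, h'⟩ | ⟨h, h'⟩ | ⟨h, h'⟩
    · rw [h]; exact (pH _ _ h').2
    · rw [h]; exact (pH _ _ h').2.symm
    · rw [h]; exact (pV _ _ h').2
    · rw [h]; exact (pV _ _ h').2.symm
  have hroot : ((9, 11) : ℕ × ℕ) ∈ Vset N := by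
    rw [Pool.Agent.Helper38.ELP.mem_Vset]
    have : ty N 0 1 = Ty.RB := by
      unfold ty
      rw [if_neg (by omega)]
      rfl
    change (presM (ty N (9 / 10) (11 / 10))).testBit (10 * (11 % 10) + 9 % 10) = true
    norm_num
    rw [this]
    decide +kernel
  -- the graph
  let V : Type := {p : ℕ × ℕ // p ∈ Vset N}
  let G : SimpleGraph V :=
    { Adj := fun p q => adjU uh uv p.1 q.1
      symm := ⟨fun _ _ h => adjU_symm h⟩
      loopless := ⟨fun _ h => adjU_ne h rfl⟩ }
  have hcard : Fintype.card V = (Vset N).card := Fintype.card_coe _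
  have hconn : G.Connected := by
    have hr : ∀ q : ℕ × ℕ, Relation.ReflTransGen (adjU uh uv) (9, 11) q →
        ∃ hq : q ∈ Vset N, G.Reachable ⟨(9, 11), hroot⟩ ⟨q, hq⟩ := by
      intro q hq
      induction hq with
      | refl => exact ⟨hroot, SimpleGraph.Reachable.refl _⟩
      | tail _ hbc ih =>
        obtain ⟨hb, hb'⟩ := ih
        exact ⟨(hends _ _ hbc).2, hb'.trans (SimpleGraph.Adj.reachable (G := G) hbc)⟩
    rw [SimpleGraph.connected_iff]
    refine ⟨?_, ⟨⟨(9, 11), hroot⟩⟩⟩
    have hr' : ∀ v : V, G.Reachable ⟨(9, 11), hroot⟩ v := by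
      rintro ⟨q, hq⟩
      obtain ⟨_, h⟩ := hr q (hreach q.1 q.2 (Pool.Agent.Helper38.ELP.mem_Vset.mp hq))
      exact h
    intro u v
    exact (hr' u).symm.trans (hr' v)
  have himg : ∀ v : V, Subtype.val '' G.neighborSet v = (nbrs uh uv v.1.1 v.1.2 : Set (ℕ × ℕ)) := by
    intro v
    ext q
    simp only [Set.mem_image, SimpleGraph.mem_neighborSet, Finset.mem_coe, mem_nbrs]
    constructor
    · rintro ⟨w, hw, rfl⟩; exact hw
    · intro h; exact ⟨⟨q, (hends _ _ h).2⟩, h, rfl⟩
  have hncard : ∀ v : V, (G.neighborSet v).ncard = 2 := by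
    intro v
    rw [← Set.ncard_image_of_injective _ Subtype.val_injective, himg, Set.ncard_coe_finset,
      card_nbrs]
    exact hdeg _ _ (Pool.Agent.Helper38.ELP.mem_Vset.mp v.2)
  obtain ⟨s, hs⟩ := h7 V G (Vset N).card hcard hconn hncard
  -- the tour
  let τ : Equiv.Perm (Fin (Vset N).card) := s.trans (Vset N).equivFin
  have hτ : ∀ i, PN N (τ i) = (s i).1 := by
    intro i
    unfold PN
    simp only [τ, Equiv.trans_apply, Equiv.symm_apply_apply]
  have h3 : 3 ≤ (Vset N).card := by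
    -- a vertex and its two neighbours
    have h2 := hncard ⟨(9, 11), hroot⟩
    have h1 : (nbrs uh uv 9 11).card = 2 := by
      rw [card_nbrs]
      exact hdeg _ _ (Pool.Agent.Helper38.ELP.mem_Vset.mp hroot)
    have h4 : insert (9, 11) (nbrs uh uv 9 11) ⊆ Vset N := by
      intro q hq
      rw [Finset.mem_insert] at hq
      rcases hq with rfl | hq
      · exact hroot
      · exact (hends _ _ (mem_nbrs.mp hq)).2
    have h5 : ((9, 11) : ℕ × ℕ) ∉ nbrs uh uv 9 11 := fun h => adjU_ne (mem_nbrs.mp h) rfl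
    have := Finset.card_le_card h4
    rw [Finset.card_insert_of_notMem h5, h1] at this
    exact this
  have hadj : ∀ i, adjU uh uv (PN N (τ i)) (PN N (τ (finRotate _ i))) := by
    intro i
    rw [hτ, hτ]
    exact hs i
  have hu : UnitTour (posN N) τ := fun i => nb_unitStep (adjU_nb (hadj i))
  -- consecutive = used
  have hTA : ∀ p q, TA (PN N) τ p q ↔ adjU uh uv p q := by
    intro p q
    constructor
    · rintro ⟨i, ⟨h1, h2⟩ | ⟨h1, h2⟩⟩
      · rw [← h1, ← h2]; exact hadj i
      · rw [← h1, ← h2]; exact adjU_symm (hadj i)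
    · intro h
      have hp := (hends _ _ h).1
      obtain ⟨j, hj⟩ := PN_surj N hp
      obtain ⟨i, hi⟩ : ∃ i, j = τ (finRotate _ i) :=
        ⟨(finRotate _).symm (τ.symm j), by rw [Equiv.apply_symm_apply, Equiv.apply_symm_apply]⟩
      rw [← hj, hi, TA_iff τ (PN_inj N)]
      have hne : PN N (τ (finRotate _ (finRotate _ i))) ≠ PN N (τ i) := by
        intro h
        exact finRotate_two h3 i (τ.injective (PN_inj N h))
      have hcardp : (nbrs uh uv p.1 p.2).card = 2 := by
        rw [card_nbrs]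
        exact hdeg _ _ (Pool.Agent.Helper38.ELP.mem_Vset.mp hp)
      have hsub : ({PN N (τ (finRotate _ (finRotate _ i))), PN N (τ i)} : Finset (ℕ × ℕ))
          ⊆ nbrs uh uv p.1 p.2 := by
        intro w hw
        rw [Finset.mem_insert, Finset.mem_singleton] at hw
        rw [mem_nbrs]
        change adjU uh uv p w
        rw [← hj, hi]
        rcases hw with rfl | rfl
        · exact hadj (finRotate _ i)
        · exact adjU_symm (hadj i)
      have heq := Finset.eq_of_subset_of_card_le hsub (by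
        rw [hcardp, Finset.card_pair hne])
      have hq : q ∈ nbrs uh uv p.1 p.2 := mem_nbrs.mpr h
      rw [← heq, Finset.mem_insert, Finset.mem_singleton] at hq
      exact hq
  refine ⟨τ, hu, ?_, ?_⟩
  · funext x y
    rw [Bool.eq_iff_iff, posN_eq, useH_iff, hTA, adjU_right]
  · funext x y
    rw [Bool.eq_iff_iff, posN_eq, useV_iff, hTA, adjU_up]

end Pool.Agent.Helper68.ELP
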