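import Pool.Agent.Helper38.ELP.Spec
import Pool.Agent.Helper68.LP.Gadget

set_option autoImplicit false

/-!
# Unit tours and their used edges (modules D1, D2 of helper38's gadget)
-/

namespace Pool.Agent.Helper68.ELP

open Pool.Agent.Helper38.ELP
open Pool.Agent.Helper68.LP (finRotate_two Nb)

section gen

variable {n : ℕ} (P : Fin n → ℕ × ℕ) (σ : Equiv.Perm (Fin n))

/-- integer positions -/
def cst (p : ℕ × ℕ) : ℤ × ℤ := ((p.1 : ℤ), (p.2 : ℤ))

theorem cst_inj {p q : ℕ × ℕ} : cst p = cst q ↔ p = q := by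
  unfold cst
  constructor
  · intro h
    simp only [Prod.mk.injEq, Nat.cast_inj] at h
    exact Prod.ext h.1 h.2
  · intro h; rw [h]

/-- `p` and `q` are consecutive on the tour -/
def TA (p q : ℕ × ℕ) : Prop :=
  ∃ i, (P (σ i) = p ∧ P (σ (finRotate n i)) = q) ∨ (P (σ i) = q ∧ P (σ (finRotate n i)) = p)

theorem TA.symm {p q : ℕ × ℕ} (h : TA P σ p q) : TA P σ q p := by
  obtain ⟨i, h⟩ := h
  exact ⟨i, h.symm⟩

theorem useH_iff (x y : ℕ) :
    useH (fun i => cst (P i)) σ x y = true ↔ TA P σ (x, y) (x + 1, y) := by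
  have e1 : (((x : ℤ), (y : ℤ)) : ℤ × ℤ) = cst (x, y) := rfl
  have e2 : (((x : ℤ) + 1, (y : ℤ)) : ℤ × ℤ) = cst (x + 1, y) := by simp [cst]
  unfold useH TA
  rw [decide_eq_true_iff, e1, e2]
  simp only [cst_inj]

theorem useV_iff (x y : ℕ) :
    useV (fun i => cst (P i)) σ x y = true ↔ TA P σ (x, y) (x, y + 1) := by
  have e1 : (((x : ℤ), (y : ℤ)) : ℤ × ℤ) = cst (x, y) := rfl
  have e2 : (((x : ℤ), (y : ℤ) + 1) : ℤ × ℤ) = cst (x, y + 1) := by simp [cst]
  unfold useV TA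
  rw [decide_eq_true_iff, e1, e2]
  simp only [cst_inj]

theorem unitStep_cst {p q : ℕ × ℕ} (h : UnitStep (cst p) (cst q)) : Nb p q := by
  obtain ⟨a, b⟩ := p
  obtain ⟨c, d⟩ := q
  unfold UnitStep cst at h
  simp only at h
  unfold Nb
  simp only
  have h1 : ((a : ℤ) - c) ^ 2 ≤ 1 := by nlinarith [sq_nonneg ((b : ℤ) - d)]
  have h2 : ((b : ℤ) - d) ^ 2 ≤ 1 := by nlinarith [sq_nonneg ((a : ℤ) - c)]
  have h3 : -1 ≤ (a : ℤ) - c ∧ (a : ℤ) - c ≤ 1 := by
    constructor <;> nlinarith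
  have h4 : -1 ≤ (b : ℤ) - d ∧ (b : ℤ) - d ≤ 1 := by
    constructor <;> nlinarith
  have h5 : (a : ℤ) - c = -1 ∨ (a : ℤ) - c = 0 ∨ (a : ℤ) - c = 1 := by omega
  have h6 : (b : ℤ) - d = -1 ∨ (b : ℤ) - d = 0 ∨ (b : ℤ) - d = 1 := by omega
  rcases h5 with h5 | h5 | h5 <;> rcases h6 with h6 | h6 | h6 <;> rw [h5, h6] at h <;>
    first | (exfalso; norm_num at h; done) | omega

theorem adjU_of_TA {p q : ℕ × ℕ} (hn : Nb p q) (h : TA P σ p q) :
    adjU (useH (fun i => cst (P i)) σ) (useV (fun i => cst (P i)) σ) p q := by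
  obtain ⟨a, b⟩ := p
  obtain ⟨c, d⟩ := q
  unfold Nb at hn
  simp only at hn
  unfold adjU
  simp only [useH_iff, useV_iff]
  rcases hn with ⟨h1, h2⟩ | ⟨h1, h2⟩ | ⟨h1, h2⟩ | ⟨h1, h2⟩
  · subst h1; subst h2
    exact Or.inl ⟨rfl, h⟩
  · subst h1; subst h2
    exact Or.inr (Or.inl ⟨rfl, h.symm⟩)
  · subst h1; subst h2
    exact Or.inr (Or.inr (Or.inl ⟨rfl, h⟩))
  · subst h1; subst h2
    exact Or.inr (Or.inr (Or.inr ⟨rfl, h.symm⟩))

variable {P}

/-- the tour neighbours of a point -/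
theorem TA_iff (hP : Function.Injective P) (i : Fin n) (q : ℕ × ℕ) :
    TA P σ (P (σ (finRotate n i))) q ↔
      q = P (σ (finRotate n (finRotate n i))) ∨ q = P (σ i) := by
  constructor
  · rintro ⟨j, ⟨h1, h2⟩ | ⟨h1, h2⟩⟩
    · left
      rw [← h2, σ.injective (hP h1)]
    · right
      have := (finRotate n).injective (σ.injective (hP h2))
      rw [← h1, this]
  · rintro (h | h)
    · exact ⟨finRotate n i, Or.inl ⟨rfl, h.symm⟩⟩
    · exact ⟨i, Or.inr ⟨h.symm, rfl⟩⟩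

open Classical in
theorem degU_eq (x y : ℕ) :
    degU (useH (fun i => cst (P i)) σ) (useV (fun i => cst (P i)) σ) x y
      = (if TA P σ (x, y) (x + 1, y) then 1 else 0) + (if TA P σ (x, y) (x, y + 1) then 1 else 0)
        + (if x ≠ 0 ∧ TA P σ (x, y) (x - 1, y) then 1 else 0)
        + (if y ≠ 0 ∧ TA P σ (x, y) (x, y - 1) then 1 else 0) := by
  have hH : ∀ x y, (useH (fun i => cst (P i)) σ x y).toNat
      = if TA P σ (x, y) (x + 1, y) then 1 else 0 := by
    intro x y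
    by_cases h : TA P σ (x, y) (x + 1, y)
    · rw [if_pos h, (useH_iff P σ x y).mpr h]; rfl
    · rw [if_neg h]
      have : useH (fun i => cst (P i)) σ x y = false := by
        rw [← Bool.not_eq_true]
        exact fun h' => h ((useH_iff P σ x y).mp h')
      rw [this]; rfl
  have hV : ∀ x y, (useV (fun i => cst (P i)) σ x y).toNat
      = if TA P σ (x, y) (x, y + 1) then 1 else 0 := by
    intro x y
    by_cases h : TA P σ (x, y) (x, y + 1)
    · rw [if_pos h, (useV_iff P σ x y).mpr h]; rfl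
    · rw [if_neg h]
      have : useV (fun i => cst (P i)) σ x y = false := by
        rw [← Bool.not_eq_true]
        exact fun h' => h ((useV_iff P σ x y).mp h')
      rw [this]; rfl
  unfold degU
  rw [hH, hV]
  congr 1
  · congr 1
    by_cases hx : x = 0
    · simp [hx]
    · obtain ⟨k, rfl⟩ := Nat.exists_eq_succ_of_ne_zero hx
      rw [if_neg (by omega), hH]
      have : TA P σ (k.succ - 1, y) (k.succ - 1 + 1, y) ↔ TA P σ (k.succ, y) (k.succ - 1, y) :=
        ⟨fun h => h.symm, fun h => h.symm⟩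
      simp only [this]
      simp
  · by_cases hy : y = 0
    · simp [hy]
    · obtain ⟨k, rfl⟩ := Nat.exists_eq_succ_of_ne_zero hy
      rw [if_neg (by omega), hV]
      have : TA P σ (x, k.succ - 1) (x, k.succ - 1 + 1) ↔ TA P σ (x, k.succ) (x, k.succ - 1) :=
        ⟨fun h => h.symm, fun h => h.symm⟩
      simp only [this]
      simp

theorem deg_two (hn : 3 ≤ n) (hP : Function.Injective P)
    (hσ : ∀ i, Nb (P (σ i)) (P (σ (finRotate n i)))) (i0 : Fin n) :
    degU (useH (fun i => cst (P i)) σ) (useV (fun i => cst (P i)) σ) (P i0).1 (P i0).2 = 2 := by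
  classical
  obtain ⟨i, rfl⟩ : ∃ i, i0 = σ (finRotate n i) :=
    ⟨(finRotate n).symm (σ.symm i0), by rw [Equiv.apply_symm_apply, Equiv.apply_symm_apply]⟩
  rw [degU_eq]
  have h1 := hσ i
  have h2 := hσ (finRotate n i)
  have hne : P (σ (finRotate n (finRotate n i))) ≠ P (σ i) := by
    intro h
    exact finRotate_two hn i (σ.injective (hP h))
  have hTA := TA_iff σ hP i
  rcases hp : P (σ (finRotate n i)) with ⟨x, y⟩
  rw [hp] at hTA h1 h2
  simp only [hTA]
  rcases hs : P (σ (finRotate n (finRotate n i))) with ⟨s1, s2⟩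
  rcases ht : P (σ i) with ⟨t1, t2⟩
  rw [hs] at h2 hne
  rw [ht] at h1 hne
  unfold Nb at h1 h2
  simp only at h1 h2
  simp only [Prod.mk.injEq]
  simp only [ne_eq, Prod.mk.injEq] at hne
  rcases h1 with ⟨a1, a2⟩ | ⟨a1, a2⟩ | ⟨a1, a2⟩ | ⟨a1, a2⟩ <;>
    rcases h2 with ⟨b1, b2⟩ | ⟨b1, b2⟩ | ⟨b1, b2⟩ | ⟨b1, b2⟩ <;>
    (split_ifs <;> omega)

theorem all_of_closed (Q : Fin n → Prop) (hQ : ∀ i, Q i → Q (finRotate n i)) (i0 : Fin n)
    (h0 : Q i0) (hn : 2 ≤ n) : ∀ i, Q i := by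
  have hpow : ∀ k : ℕ, Q (((finRotate n) ^ k) i0) := by
    intro k
    induction k with
    | zero => exact h0
    | succ k ih =>
      rw [pow_succ', Equiv.Perm.mul_apply]
      exact hQ _ ih
  intro i
  have hc : (finRotate n).IsCycle := isCycle_finRotate_of_le hn
  obtain ⟨k, hk⟩ := hc.exists_pow_eq (Pool.Agent.Helper68.LP.finRotate_ne hn i0)
    (Pool.Agent.Helper68.LP.finRotate_ne hn i)
  rw [← hk]
  exact hpow k

theorem closed_all (hn : 2 ≤ n)
    (hσ : ∀ i, Nb (P (σ i)) (P (σ (finRotate n i)))) (S : Finset (ℕ × ℕ))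
    (hS : ∀ p ∈ S, ∀ q, adjU (useH (fun i => cst (P i)) σ) (useV (fun i => cst (P i)) σ) p q → q ∈ S)
    (i0 : Fin n) (h0 : P i0 ∈ S) : ∀ i, P i ∈ S := by
  have h1 : ∀ i, P (σ i) ∈ S := by
    apply all_of_closed (fun i => P (σ i) ∈ S) _ (σ.symm i0) (by simpa using h0) hn
    intro i hi
    exact hS _ hi _ (adjU_of_TA P σ (hσ i) ⟨i, Or.inl ⟨rfl, rfl⟩⟩)
  intro i
  have := h1 (σ.symm i)
  simpa using this

/-- the edge of the step `i` is the horizontal edge to the right of `p` -/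
def isH (P : Fin n → ℕ × ℕ) (σ : Equiv.Perm (Fin n)) (i : Fin n) (p : ℕ × ℕ) : Prop :=
  (P (σ i) = p ∧ P (σ (finRotate n i)) = (p.1 + 1, p.2)) ∨
    (P (σ i) = (p.1 + 1, p.2) ∧ P (σ (finRotate n i)) = p)

/-- the edge of the step `i` is the vertical edge above `p` -/
def isV (P : Fin n → ℕ × ℕ) (σ : Equiv.Perm (Fin n)) (i : Fin n) (p : ℕ × ℕ) : Prop :=
  (P (σ i) = p ∧ P (σ (finRotate n i)) = (p.1, p.2 + 1)) ∨
    (P (σ i) = (p.1, p.2 + 1) ∧ P (σ (finRotate n i)) = p)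

theorem edge_unique (hn : 3 ≤ n) (hP : Function.Injective P) {i j : Fin n} {p q : ℕ × ℕ}
    (hi : (P (σ i) = p ∧ P (σ (finRotate n i)) = q) ∨ (P (σ i) = q ∧ P (σ (finRotate n i)) = p))
    (hj : (P (σ j) = p ∧ P (σ (finRotate n j)) = q) ∨ (P (σ j) = q ∧ P (σ (finRotate n j)) = p)) :
    i = j := by
  rcases hi with ⟨h1, h2⟩ | ⟨h1, h2⟩ <;> rcases hj with ⟨g1, g2⟩ | ⟨g1, g2⟩
  · exact σ.injective (hP (h1.trans g1.symm))
  · exfalso
    have e1 : i = finRotate n j := σ.injective (hP (h1.trans g2.symm))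
    have e2 : finRotate n i = j := σ.injective (hP (h2.trans g1.symm))
    rw [e1] at e2
    exact finRotate_two hn j e2
  · exfalso
    have e1 : i = finRotate n j := σ.injective (hP (h1.trans g2.symm))
    have e2 : finRotate n i = j := σ.injective (hP (h2.trans g1.symm))
    rw [e1] at e2
    exact finRotate_two hn j e2
  · exact σ.injective (hP (h1.trans g1.symm))

open Classical in
theorem sum_step (hn : 3 ≤ n) (hP : Function.Injective P) (V : Finset (ℕ × ℕ)) (w : ℕ × ℕ → ℤ)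
    (Qp : Fin n → ℕ × ℕ → Prop) [∀ i p, Decidable (Qp i p)] (f : ℕ × ℕ → ℕ × ℕ)
    (hQ : ∀ i p, Qp i p ↔ (P (σ i) = p ∧ P (σ (finRotate n i)) = f p) ∨
      (P (σ i) = f p ∧ P (σ (finRotate n i)) = p)) :
    ∑ i, ∑ p ∈ V, (if Qp i p then w p else 0)
      = ∑ p ∈ V, if TA P σ p (f p) then w p else 0 := by
  rw [Finset.sum_comm]
  refine Finset.sum_congr rfl fun p _ => ?_
  by_cases h : TA P σ p (f p)
  · rw [if_pos h]
    obtain ⟨i, hi⟩ := h
    rw [Finset.sum_eq_single i]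
    · rw [if_pos ((hQ i p).mpr hi)]
    · intro j _ hj
      rw [if_neg]
      intro h'
      exact hj (edge_unique σ hn hP ((hQ j p).mp h') hi)
    · intro h; exact absurd (Finset.mem_univ i) h
  · rw [if_neg h]
    apply Finset.sum_eq_zero
    intro i _
    rw [if_neg]
    intro h'
    exact h ⟨i, (hQ i p).mp h'⟩

open Classical in
theorem ew_eq (wH wV : ℤ → ℤ → ℤ) (V : Finset (ℕ × ℕ)) {p q : ℕ × ℕ} (hp : p ∈ V) (hq : q ∈ V)
    (hn : Nb p q) :
    ew wH wV (cst p) (cst q)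
      = (∑ a ∈ V, if (p = a ∧ q = (a.1 + 1, a.2)) ∨ (p = (a.1 + 1, a.2) ∧ q = a) then
          wH a.1 a.2 else 0)
        + ∑ a ∈ V, if (p = a ∧ q = (a.1, a.2 + 1)) ∨ (p = (a.1, a.2 + 1) ∧ q = a) then
          wV a.1 a.2 else 0 := by
  obtain ⟨x, y⟩ := p
  obtain ⟨x', y'⟩ := q
  unfold Nb at hn
  simp only at hn
  have single : ∀ (w : ℕ × ℕ → ℤ) (Qa : ℕ × ℕ → Prop) [DecidablePred Qa] (a0 : ℕ × ℕ), a0 ∈ V →
      (∀ a, Qa a ↔ a = a0) → ∑ a ∈ V, (if Qa a then w a else 0) = w a0 := by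
    intro w Qa _ a0 ha0 h
    rw [Finset.sum_eq_single a0]
    · rw [if_pos ((h a0).mpr rfl)]
    · intro b _ hb
      rw [if_neg]
      intro h'
      exact hb ((h b).mp h')
    · intro h'; exact absurd ha0 h'
  have none : ∀ (w : ℕ × ℕ → ℤ) (Qa : ℕ × ℕ → Prop) [DecidablePred Qa],
      (∀ a, ¬ Qa a) → ∑ a ∈ V, (if Qa a then w a else 0) = 0 := by
    intro w Qa _ h
    apply Finset.sum_eq_zero
    intro a _
    rw [if_neg (h a)]
  rcases hn with ⟨h1, h2⟩ | ⟨h1, h2⟩ | ⟨h1, h2⟩ | ⟨h1, h2⟩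
  · subst h1; subst h2
    rw [single (fun a => wH a.1 a.2) _ (x, y') hp, none (fun a => wV a.1 a.2)]
    · simp [ew, cst]
    · rintro ⟨a, b⟩ h; simp only [Prod.mk.injEq] at h; omega
    · rintro ⟨a, b⟩; simp only [Prod.mk.injEq]; omega
  · subst h1; subst h2
    rw [single (fun a => wH a.1 a.2) _ (x', y') hq, none (fun a => wV a.1 a.2)]
    · have e1 : ¬ ((x' : ℤ) = (x' : ℤ) + 1 + 1) := by omega
      simp [ew, cst, e1]
    · rintro ⟨a, b⟩ h; simp only [Prod.mk.injEq] at h; omega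
    · rintro ⟨a, b⟩; simp only [Prod.mk.injEq]; omega
  · subst h1; subst h2
    rw [none (fun a => wH a.1 a.2), single (fun a => wV a.1 a.2) _ (x', y) hp]
    · simp [ew, cst]
    · rintro ⟨a, b⟩; simp only [Prod.mk.injEq]; omega
    · rintro ⟨a, b⟩ h; simp only [Prod.mk.injEq] at h; omega
  · subst h1; subst h2
    rw [none (fun a => wH a.1 a.2), single (fun a => wV a.1 a.2) _ (x', y') hq]
    · have e1 : ¬ ((y' : ℤ) = (y' : ℤ) + 1 + 1) := by omega
      simp [ew, cst, e1]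
    · rintro ⟨a, b⟩; simp only [Prod.mk.injEq]; omega
    · rintro ⟨a, b⟩ h; simp only [Prod.mk.injEq] at h; omega

theorem tourW_eq (hn : 3 ≤ n) (hP : Function.Injective P) (V : Finset (ℕ × ℕ))
    (hV : ∀ i, P i ∈ V) (hσ : ∀ i, Nb (P (σ i)) (P (σ (finRotate n i)))) (wH wV : ℤ → ℤ → ℤ) :
    tourW wH wV (fun i => cst (P i)) σ
      = ∑ p ∈ V, ((if useH (fun i => cst (P i)) σ p.1 p.2 then wH p.1 p.2 else 0) +
      (if useV (fun i => cst (P i)) σ p.1 p.2 then wV p.1 p.2 else 0)) := by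
  classical
  unfold tourW
  rw [Finset.sum_congr rfl fun i _ => ew_eq wH wV V (hV (σ i)) (hV (σ (finRotate n i))) (hσ i),
    Finset.sum_add_distrib, Finset.sum_add_distrib]
  congr 1
  · rw [sum_step σ hn hP V (fun a => wH a.1 a.2) _ (fun a => (a.1 + 1, a.2)) fun i p => Iff.rfl]
    refine Finset.sum_congr rfl fun p _ => ?_
    have := useH_iff P σ p.1 p.2
    by_cases h : TA P σ p (p.1 + 1, p.2)
    · rw [if_pos h, if_pos (this.mpr h)]
    · rw [if_neg h, if_neg (fun h' => h (this.mp h'))]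
  · rw [sum_step σ hn hP V (fun a => wV a.1 a.2) _ (fun a => (a.1, a.2 + 1)) fun i p => Iff.rfl]
    refine Finset.sum_congr rfl fun p _ => ?_
    have := useV_iff P σ p.1 p.2
    by_cases h : TA P σ p (p.1, p.2 + 1)
    · rw [if_pos h, if_pos (this.mpr h)]
    · rw [if_neg h, if_neg (fun h' => h (this.mp h'))]

end gen

/-- natural positions of the array -/
noncomputable def PN (N : ℕ) (i : Fin (Vset N).card) : ℕ × ℕ :=
  ((Vset N).equivFin.symm i : ℕ × ℕ)

theorem PN_inj (N : ℕ) : Function.Injective (PN N) := fun _ _ h =>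
  (Vset N).equivFin.symm.injective (Subtype.ext h)

theorem PN_mem (N : ℕ) (i : Fin (Vset N).card) : PN N i ∈ Vset N :=
  ((Vset N).equivFin.symm i).2

theorem PN_surj (N : ℕ) {p : ℕ × ℕ} (hp : p ∈ Vset N) : ∃ i, PN N i = p :=
  ⟨(Vset N).equivFin ⟨p, hp⟩, by unfold PN; simp⟩

theorem posN_eq (N : ℕ) : posN N = fun i => cst (PN N i) := rfl

theorem unit_nb {N : ℕ} {σ : Equiv.Perm (Fin (Vset N).card)} (h : UnitTour (posN N) σ) :
    ∀ i, Nb (PN N (σ i)) (PN N (σ (finRotate _ i))) := fun i => unitStep_cst (h i)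

theorem pres_lt {N x y : ℕ} (h : pres N x y = true) : x < 10 * (N + 2) ∧ y < 10 * (N + 2) := by
  by_contra hc
  unfold pres rd at h
  have : ty N (x / 10) (y / 10) = Ty.E := by
    unfold ty
    rw [if_pos]
    omega
  rw [this] at h
  simp [presM] at h

theorem mem_Vset {N : ℕ} {p : ℕ × ℕ} : p ∈ Vset N ↔ pres N p.1 p.2 = true := by
  unfold Vset
  rw [Finset.mem_filter, Finset.mem_product, Finset.mem_range, Finset.mem_range]
  constructor
  · exact fun h => h.2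
  · exact fun h => ⟨pres_lt h, h⟩

/-- module D1 -/
theorem d1 : specD1 := by
  intro N σ hn hσ
  have hσ' := unit_nb hσ
  constructor
  · intro x y hxy
    obtain ⟨i, hi⟩ := PN_surj N (mem_Vset.mpr hxy : (x, y) ∈ Vset N)
    have := deg_two σ hn (PN_inj N) hσ' i
    rw [hi] at this
    exact this
  · intro S hS hSV
    by_contra hc
    push Not at hc
    obtain ⟨p, hp⟩ := hS
    obtain ⟨i, hi⟩ := PN_surj N (hSV.1 hp)
    have := closed_all σ (by omega) hσ' S (fun p hp q hq => by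
      by_contra h
      exact hc p hp q h hq) i (by rw [hi]; exact hp)
    apply hSV.2
    intro q hq
    obtain ⟨j, hj⟩ := PN_surj N hq
    rw [← hj]
    exact this j

/-- module D2 -/
theorem d2 : specD2 := by
  intro N σ wH wV hn hσ
  exact tourW_eq σ hn (PN_inj N) (Vset N) (PN_mem N) (unit_nb hσ) wH wV

end Pool.Agent.Helper68.ELP
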