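import Pool.Agent.Helper38.ELP.Cfg
import Pool.Agent.Helper38.ELP.Spec

set_option autoImplicit false

/-!
# The configuration of `b` respects the tables and has degree two (module D8)
-/

namespace Pool.Agent.Helper68.ELP

open Pool.Agent.Helper38.ELP

theorem st_pres : ∀ t : Ty, ∀ v h : Bool, valid t v h = true → ∀ x y : Fin 10,
    ((stH t v h).testBit (10 * y + x) = true → (presM t).testBit (10 * y + x) = true ∧
      (x.val < 9 → (presM t).testBit (10 * y + (x + 1)) = true)) ∧
    ((stV t v h).testBit (10 * y + x) = true → (presM t).testBit (10 * y + x) = true ∧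
      (y.val < 9 → (presM t).testBit (10 * (y + 1) + x) = true)) := by decide +kernel

theorem pres_port : ∀ t : Ty, ∀ b : Bool,
    (hasL t = true → (presM t).testBit (10 * (1 + b.toNat)) = true) ∧
    (hasB t = true → (presM t).testBit (1 + b.toNat) = true) := by decide +kernel

theorem no_left (N J : ℕ) : hasL (ty N 0 J) = false := by
  unfold ty
  split_ifs <;> first | rfl | omega

theorem no_bottom (N I : ℕ) : hasB (ty N I 0) = false := by
  unfold ty
  by_cases h1 : N + 1 < I ∨ N + 1 < 0
  · rw [if_pos h1]; rfl
  · rw [if_neg h1]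
    by_cases h2 : I = 0
    · rw [if_pos h2]; rfl
    · rw [if_neg h2, if_neg (by omega)]
      by_cases h3 : I = N + 1
      · rw [if_pos h3]; rfl
      · rw [if_neg h3]; rfl

/-- module D8 -/
theorem d8 : specD8 := by
  intro M b h0 h1
  set N := 2 * M + 2 with hN
  have hNe : N % 2 = 0 := by omega
  have hval : ∀ I J, valid (ty N I J) (vb b I J) (hb N b I J) = true := valid_cfg h0 h1
  have split : ∀ x : ℕ, ∃ I x', x' < 10 ∧ x = 10 * I + x' := fun x =>
    ⟨x / 10, x % 10, Nat.mod_lt _ (by norm_num), by omega⟩
  -- the left port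
  have left : ∀ I J y, y < 10 → uH N b (10 * I + 9) (10 * J + y)
      = (hasL (ty N (I + 1) J) && decide (y = 1 + (hb N b (I + 1) J).toNat)) := by
    intro I J y hy
    rw [uH_loc N b I J 9 y (by norm_num) hy]
    have h := (st_port (ty N I J) (vb b I J) (hb N b I J) (hval I J) ⟨y, hy⟩).1
    simp only at h
    rw [h]
    rw [hasR_eq hNe]
    by_cases hR : hasR (ty N I J) = true
    · rw [hb_right hNe I J hR]
    · rw [Bool.not_eq_true, hasR_eq hNe] at hR
      rw [hR]; rfl
  have bottom : ∀ I J x, x < 10 → uV N b (10 * I + x) (10 * J + 9)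
      = (hasB (ty N I (J + 1)) && decide (x = 1 + (vb b I (J + 1)).toNat)) := by
    intro I J x hx
    rw [uV_loc N b I J x 9 hx (by norm_num)]
    have h := (st_port (ty N I J) (vb b I J) (hb N b I J) (hval I J) ⟨x, hx⟩).2
    simp only at h
    have e : 10 * 9 + x = 90 + x := by ring
    rw [e, h]
    rw [hasT_eq hNe]
    by_cases hT : hasT (ty N I J) = true
    · rw [vb_up hNe I J hT]
    · rw [Bool.not_eq_true, hasT_eq hNe] at hT
      rw [hT]; rfl
  refine ⟨?_, ?_, ?_, ?_, ?_⟩
  · intro x y h
    obtain ⟨I, x, hx, rfl⟩ := split x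
    obtain ⟨J, y, hy, rfl⟩ := split y
    rw [uH_loc N b I J x y hx hy] at h
    have h2 := (st_ok (ty N I J) (vb b I J) (hb N b I J) (hval I J) ⟨10 * y + x, by omega⟩).1 h
    have h3 := (st_pres (ty N I J) (vb b I J) (hb N b I J) (hval I J) ⟨x, hx⟩ ⟨y, hy⟩).1 h
    refine ⟨?_, ?_, ?_⟩
    · rw [rd_loc alH N I J x y hx hy]; exact h2
    · unfold pres; rw [rd_loc presM N I J x y hx hy]; exact h3.1
    · unfold pres
      by_cases h9 : x < 9
      · have e : 10 * I + x + 1 = 10 * I + (x + 1) := by ring
        rw [e, rd_loc presM N I J (x + 1) y (by omega) hy]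
        exact h3.2 h9
      · have e9 : x = 9 := by omega
        subst e9
        have h4 := left I J y hy
        rw [uH_loc N b I J 9 y hx hy, h] at h4
        have h5 := h4.symm
        rw [Bool.and_eq_true, decide_eq_true_eq] at h5
        have e : 10 * I + 9 + 1 = 10 * (I + 1) + 0 := by ring
        rw [e, rd_loc presM N (I + 1) J 0 y (by norm_num) hy, h5.2]
        exact (pres_port _ _).1 h5.1
  · intro x y h
    obtain ⟨I, x, hx, rfl⟩ := split x
    obtain ⟨J, y, hy, rfl⟩ := split y
    rw [uV_loc N b I J x y hx hy] at h
    have h2 := (st_ok (ty N I J) (vb b I J) (hb N b I J) (hval I J) ⟨10 * y + x, by omega⟩).2.1 h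
    have h3 := (st_pres (ty N I J) (vb b I J) (hb N b I J) (hval I J) ⟨x, hx⟩ ⟨y, hy⟩).2 h
    refine ⟨?_, ?_, ?_⟩
    · rw [rd_loc alV N I J x y hx hy]; exact h2
    · unfold pres; rw [rd_loc presM N I J x y hx hy]; exact h3.1
    · unfold pres
      by_cases h9 : y < 9
      · have e : 10 * J + y + 1 = 10 * J + (y + 1) := by ring
        rw [e, rd_loc presM N I J x (y + 1) hx (by omega)]
        exact h3.2 h9
      · have e9 : y = 9 := by omega
        subst e9
        have h4 := bottom I J x hx
        rw [uV_loc N b I J x 9 hx hy, h] at h4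
        have h5 := h4.symm
        rw [Bool.and_eq_true, decide_eq_true_eq] at h5
        have e : 10 * J + 9 + 1 = 10 * (J + 1) + 0 := by ring
        rw [e, rd_loc presM N I (J + 1) x 0 hx (by norm_num), h5.2]
        have := (pres_port (ty N I (J + 1)) (vb b I (J + 1))).2 h5.1
        simpa using this
  · intro x y h
    obtain ⟨I, x, hx, rfl⟩ := split x
    obtain ⟨J, y, hy, rfl⟩ := split y
    rw [rd_loc foH N I J x y hx hy] at h
    rw [uH_loc N b I J x y hx hy]
    exact (st_ok (ty N I J) (vb b I J) (hb N b I J) (hval I J) ⟨10 * y + x, by omega⟩).2.2.1 h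
  · intro x y h
    obtain ⟨I, x, hx, rfl⟩ := split x
    obtain ⟨J, y, hy, rfl⟩ := split y
    rw [rd_loc foV N I J x y hx hy] at h
    rw [uV_loc N b I J x y hx hy]
    exact (st_ok (ty N I J) (vb b I J) (hb N b I J) (hval I J) ⟨10 * y + x, by omega⟩).2.2.2 h
  · intro x y h
    obtain ⟨I, x, hx, rfl⟩ := split x
    obtain ⟨J, y, hy, rfl⟩ := split y
    unfold pres at h
    rw [rd_loc presM N I J x y hx hy] at h
    have hd := st_deg (ty N I J) (vb b I J) (hb N b I J) (hval I J) ⟨x, hx⟩ ⟨y, hy⟩ h
    rw [← hd]
    unfold degU ldeg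
    simp only
    rw [uH_loc N b I J x y hx hy, uV_loc N b I J x y hx hy]
    congr 1
    · congr 1
      by_cases hx0 : x = 0
      · subst hx0
        rw [if_pos rfl]
        cases I with
        | zero =>
          rw [if_pos (by omega), no_left]
          rfl
        | succ I =>
          rw [if_neg (by omega)]
          have e : 10 * (I + 1) + 0 - 1 = 10 * I + 9 := by omega
          rw [e, left I J y hy]
          by_cases hc : (hasL (ty N (I + 1) J) && decide (y = 1 + (hb N b (I + 1) J).toNat)) = true
          · rw [hc]
            rw [if_pos]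
            · rfl
            · exact hc
          · rw [Bool.not_eq_true] at hc
            rw [hc]
            rw [if_neg]
            · rfl
            · intro h'
              have : (hasL (ty N (I + 1) J) && decide (y = 1 + (hb N b (I + 1) J).toNat)) = true := h'
              rw [this] at hc
              exact Bool.noConfusion hc
      · rw [if_neg (by omega), if_neg hx0]
        have e : 10 * I + x - 1 = 10 * I + (x - 1) := by omega
        rw [e, uH_loc N b I J (x - 1) y (by omega) hy]
    · by_cases hy0 : y = 0
      · subst hy0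
        rw [if_pos rfl]
        cases J with
        | zero =>
          rw [if_pos (by omega), no_bottom]
          rfl
        | succ J =>
          rw [if_neg (by omega)]
          have e : 10 * (J + 1) + 0 - 1 = 10 * J + 9 := by omega
          rw [e, bottom I J x hx]
          by_cases hc : (hasB (ty N I (J + 1)) && decide (x = 1 + (vb b I (J + 1)).toNat)) = true
          · rw [hc]
            rw [if_pos]
            · rfl
            · exact hc
          · rw [Bool.not_eq_true] at hc
            rw [hc]
            rw [if_neg]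
            · rfl
            · intro h'
              have : (hasB (ty N I (J + 1)) && decide (x = 1 + (vb b I (J + 1)).toNat)) = true := h'
              rw [this] at hc
              exact Bool.noConfusion hc
      · rw [if_neg (by omega), if_neg hy0]
        have e : 10 * J + y - 1 = 10 * J + (y - 1) := by omega
        rw [e, uV_loc N b I J x (y - 1) hx (by omega)]

end Pool.Agent.Helper68.ELP
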